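import Mathlib
import Pool.Agent.Results.MP_9038fc_co.Disproof

/-!
Hamiltonian circuits of tournaments as lists of natural numbers.
-/

set_option autoImplicit false

namespace Pool.Agent.Y351.HC

open Pool.Agent.Results.MP_9038fc_co.Disproof (IsTournament hamCount maxHam)

/-- lists `l` of all of `1, ..., n-1` such that `0, l, 0` is a closed walk of `A` -/
def HL (n : ℕ) (A : ℕ → ℕ → Bool) : Set (List ℕ) :=
  {l | l.Perm (List.range' 1 (n - 1)) ∧ List.IsChain (fun a b => A a b = true) (0 :: (l ++ [0]))}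

theorem exists_fin_list {n : ℕ} (L : List ℕ) (h : ∀ x ∈ L, x < n) :
    ∃ xs : List (Fin n), xs.map Fin.val = L := by
  induction L with
  | nil => exact ⟨[], rfl⟩
  | cons a L ih =>
    obtain ⟨xs, hxs⟩ := ih (fun x hx => h x (by simp [hx]))
    exact ⟨⟨a, h a (by simp)⟩ :: xs, by simp [hxs]⟩

/-- the walk of `c` from `0` -/
def wl {n : ℕ} (c : Equiv.Perm (Fin n)) (z : Fin n) (m : ℕ) : List ℕ :=
  (List.range m).map fun i => ((c ^ i) z).val

theorem wl_chain {n : ℕ} (c : Equiv.Perm (Fin n)) (z : Fin n) (m : ℕ) (A : ℕ → ℕ → Bool) :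
    List.IsChain (fun a b => A a b = true) (wl c z (m + 1)) ↔
      ∀ i < m, A ((c ^ i) z).val ((c ^ (i + 1)) z).val = true := by
  unfold wl
  rw [List.isChain_map, List.isChain_range_succ]

theorem pow_apply_eq {n : ℕ} (hn : 2 ≤ n) (c : Equiv.Perm (Fin n)) (hc : c.IsCycle)
    (hs : c.support = Finset.univ) (z : Fin n) : (c ^ n) z = z := by
  have h1 := hc.orderOf
  rw [hs, Finset.card_univ, Fintype.card_fin] at h1
  have h2 := pow_orderOf_eq_one c
  rw [h1] at h2
  rw [h2]; rfl

theorem surj_pow {n : ℕ} (hn : 2 ≤ n) (c : Equiv.Perm (Fin n)) (hc : c.IsCycle)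
    (hs : c.support = Finset.univ) (z v : Fin n) : ∃ i < n, (c ^ i) z = v := by
  have hz : c z ≠ z := by
    have : z ∈ c.support := by rw [hs]; simp
    exact Equiv.Perm.mem_support.1 this
  have hv : c v ≠ v := by
    have : v ∈ c.support := by rw [hs]; simp
    exact Equiv.Perm.mem_support.1 this
  obtain ⟨i, hi, h⟩ := (hc.sameCycle hz hv).exists_pow_eq'
  refine ⟨i, ?_, h⟩
  have h2 := hc.orderOf
  rw [hs, Finset.card_univ, Fintype.card_fin] at h2
  omega

theorem inj_pow {n : ℕ} (hn : 2 ≤ n) (c : Equiv.Perm (Fin n)) (hc : c.IsCycle)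
    (hs : c.support = Finset.univ) (z : Fin n) :
    Function.Injective (fun i : Fin n => (c ^ i.val) z) := by
  have hsurj : Function.Surjective (fun i : Fin n => (c ^ i.val) z) := by
    intro v
    obtain ⟨i, hi, h⟩ := surj_pow hn c hc hs z v
    exact ⟨⟨i, hi⟩, h⟩
  exact Finite.injective_iff_surjective.2 hsurj

theorem wl_nodup {n : ℕ} (hn : 2 ≤ n) (c : Equiv.Perm (Fin n)) (hc : c.IsCycle)
    (hs : c.support = Finset.univ) (z : Fin n) : (wl c z n).Nodup := by
  unfold wl
  rw [List.nodup_map_iff_inj_on List.nodup_range]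
  intro i hi j hj h
  rw [List.mem_range] at hi hj
  have := inj_pow hn c hc hs z (a₁ := ⟨i, hi⟩) (a₂ := ⟨j, hj⟩) (Fin.ext h)
  exact congrArg Fin.val this

theorem wl_perm {n : ℕ} (hn : 2 ≤ n) (c : Equiv.Perm (Fin n)) (hc : c.IsCycle)
    (hs : c.support = Finset.univ) (z : Fin n) : (wl c z n).Perm (List.range n) := by
  rw [List.perm_ext_iff_of_nodup (wl_nodup hn c hc hs z) List.nodup_range]
  intro a
  rw [List.mem_range]
  unfold wl
  rw [List.mem_map]
  constructor
  · rintro ⟨i, -, rfl⟩
    exact ((c ^ i) z).2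
  · intro ha
    obtain ⟨i, hi, h⟩ := surj_pow hn c hc hs z ⟨a, ha⟩
    exact ⟨i, List.mem_range.2 hi, by rw [h]⟩

theorem wl_succ {n : ℕ} (c : Equiv.Perm (Fin n)) (z : Fin n) (m : ℕ) :
    wl c z (m + 1) = wl c z m ++ [((c ^ m) z).val] := by
  unfold wl
  rw [List.range_succ, List.map_append]
  rfl

theorem wl_cons {n : ℕ} (c : Equiv.Perm (Fin n)) (z : Fin n) (m : ℕ) :
    wl c z (m + 1) = z.val :: (wl c z (m + 1)).tail := by
  unfold wl
  rw [List.range_succ_eq_map]
  simp

theorem wl_eq_of_formPerm {n : ℕ} (xs : List (Fin n)) (hnd : xs.Nodup) (hlen : xs.length = n)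
    (h0 : 0 < xs.length) : wl (List.formPerm xs) xs[0] n = xs.map Fin.val := by
  have key : ∀ i (hi : i < xs.length), ((List.formPerm xs) ^ i) xs[0] = xs[i] := by
    intro i
    induction i with
    | zero => intro hi; rfl
    | succ i ih =>
      intro hi
      rw [pow_succ', Equiv.Perm.mul_apply, ih (by omega),
        List.formPerm_apply_getElem _ hnd i (by omega)]
      congr 1
      exact Nat.mod_eq_of_lt hi
  unfold wl
  apply List.ext_getElem
  · simp [hlen]
  · intro i h1 h2
    simp only [List.getElem_map, List.getElem_range]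
    have hi : i < xs.length := by simpa using h2
    rw [key i hi]

theorem hamCount_eq {n : ℕ} (hn : 2 ≤ n) (adj : Fin n → Fin n → Prop) (A : ℕ → ℕ → Bool)
    (hA : ∀ i j : Fin n, A i.val j.val = true ↔ adj i j) : hamCount adj = (HL n A).ncard := by
  obtain ⟨m, rfl⟩ : ∃ m, n = m + 1 := ⟨n - 1, by omega⟩
  have hz : (0 : Fin (m + 1)).val = 0 := rfl
  unfold hamCount
  refine Set.ncard_congr (fun c _ => (wl c 0 (m + 1)).tail) ?_ ?_ ?_
  · rintro c ⟨hc, hs, ha⟩
    have hw := wl_cons c 0 m
    rw [hz] at hw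
    have hp := wl_perm hn c hc hs 0
    have hpow := pow_apply_eq hn c hc hs 0
    refine ⟨?_, ?_⟩
    · rw [hw] at hp
      have hr : List.range (m + 1) = 0 :: List.range' 1 m := by
        rw [List.range_eq_range', List.range'_succ]
      rw [hr] at hp
      exact (List.perm_cons 0).1 hp
    · have h1 : (0 : ℕ) :: ((wl c 0 (m + 1)).tail ++ [0]) = wl c 0 (m + 1 + 1) := by
        rw [wl_succ c 0 (m + 1), hpow, hz, ← List.cons_append, ← hw]
      rw [h1, wl_chain]
      intro i _
      rw [hA, pow_succ', Equiv.Perm.mul_apply]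
      exact ha _
  · rintro c c' ⟨hc, hs, ha⟩ ⟨hc', hs', ha'⟩ h
    have h1 : wl c 0 (m + 1) = wl c' 0 (m + 1) := by
      rw [wl_cons c, wl_cons c']
      exact congrArg _ h
    have h2 : ∀ i < m + 1, (c ^ i) 0 = (c' ^ i) 0 := by
      intro i hi
      apply Fin.ext
      have h3 := congrArg (fun l => l[i]?) h1
      unfold wl at h3
      simpa [hi] using h3
    have h2' : ∀ i ≤ m + 1, (c ^ i) 0 = (c' ^ i) 0 := by
      intro i hi
      rcases Nat.lt_or_ge i (m + 1) with h | h
      · exact h2 i h
      · have : i = m + 1 := by omega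
        subst this
        rw [pow_apply_eq hn c hc hs 0, pow_apply_eq hn c' hc' hs' 0]
    apply Equiv.ext
    intro v
    obtain ⟨i, hi, rfl⟩ := surj_pow hn c hc hs 0 v
    have h4 := h2' (i + 1) (by omega)
    rw [pow_succ', pow_succ', Equiv.Perm.mul_apply, Equiv.Perm.mul_apply, ← h2 i hi] at h4
    exact h4
  · rintro l ⟨hp, hch⟩
    have hnd : (0 :: l).Nodup := by
      have hr : List.range (m + 1) = 0 :: List.range' 1 m := by
        rw [List.range_eq_range', List.range'_succ]
      have : (0 :: l).Perm (List.range (m + 1)) := by rw [hr]; exact hp.cons 0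
      exact this.nodup_iff.2 List.nodup_range
    have hlt : ∀ x ∈ (0 :: l), x < m + 1 := by
      intro x hx
      rcases List.mem_cons.1 hx with h | h
      · omega
      · have := hp.subset h
        rw [List.mem_range'_1] at this
        omega
    obtain ⟨xs, hxs⟩ := exists_fin_list (0 :: l) hlt
    have hlen : xs.length = m + 1 := by
      have h1 := congrArg List.length hxs
      have h2 := hp.length_eq
      simp only [List.length_map, List.length_cons, List.length_range'] at h1 h2
      omega
    have hnd' : xs.Nodup := by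
      apply List.Nodup.of_map Fin.val
      rw [hxs]; exact hnd
    have h0 : 0 < xs.length := by omega
    have hx0 : xs[0] = 0 := by
      apply Fin.ext
      have : (xs.map Fin.val)[0]'(by simpa using h0) = 0 := by simp [hxs]
      simpa using this
    have hwl := wl_eq_of_formPerm xs hnd' hlen h0
    rw [hx0, hxs] at hwl
    have hcyc : (List.formPerm xs).IsCycle := List.isCycle_formPerm hnd' (by omega)
    have hsup : (List.formPerm xs).support = Finset.univ := by
      rw [List.support_formPerm_of_nodup xs hnd' (by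
        intro x hx
        rw [hx] at hlen
        simp at hlen
        omega)]
      apply Finset.eq_univ_of_card
      rw [List.toFinset_card_of_nodup hnd', hlen, Fintype.card_fin]
    refine ⟨List.formPerm xs, ⟨hcyc, hsup, ?_⟩, ?_⟩
    · have h1 : (0 : ℕ) :: (l ++ [0]) = wl (List.formPerm xs) 0 (m + 1 + 1) := by
        rw [wl_succ, pow_apply_eq hn _ hcyc hsup 0, hwl, hz]
        rfl
      rw [h1, wl_chain] at hch
      intro v
      obtain ⟨i, hi, rfl⟩ := surj_pow hn _ hcyc hsup 0 v
      have h2 := hch i hi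
      rw [hA, pow_succ', Equiv.Perm.mul_apply] at h2
      exact h2
    · show (wl (List.formPerm xs) 0 (m + 1)).tail = l
      rw [hwl]
      rfl

end Pool.Agent.Y351.HC
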