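import Mathlib

/-!
Hamiltonian paths of the tournament on an interval of natural numbers with arcs
`i → i + 1` and `i → j` for `j + 2 ≤ i`.
-/

set_option autoImplicit false

namespace Pool.Agent.Y351.HC

/-- arcs of the near-transitive tournament -/
def r (i j : ℕ) : Prop := j = i + 1 ∨ j + 2 ≤ i

instance : DecidableRel r := fun i j => by unfold r; infer_instance

/-- Hamiltonian paths of `[a, a + m)` -/
def P (a m : ℕ) : Set (List ℕ) := {l | l.Perm (List.range' a m) ∧ l.IsChain r}

/-- those with last vertex `x` -/
def F (a m x : ℕ) : Set (List ℕ) := {l | l ∈ P a m ∧ l.getLast? = some x}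

theorem P_finite (a m : ℕ) : (P a m).Finite := by
  apply Set.Finite.subset ((List.range' a m).permutations.toFinset.finite_toSet)
  intro l hl
  simp only [List.coe_toFinset, Set.mem_ofPred_eq, List.mem_permutations]
  exact hl.1

theorem F_subset (a m x : ℕ) : F a m x ⊆ P a m := fun _ h => h.1

theorem F_finite (a m x : ℕ) : (F a m x).Finite := (P_finite a m).subset (F_subset a m x)

theorem suffix_eq (a : ℕ) : ∀ (t : List ℕ) (b : ℕ), (b :: t).IsChain r → (∀ x ∈ t, a ≤ x) →
    (∀ x ∈ t, b < x) → a ≤ b → t.Nodup → t = List.range' (b + 1) t.length := by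
  intro t
  induction t with
  | nil => intro b _ _ _ _ _; rfl
  | cons c t ih =>
    intro b hc h1 h2 hab hnd
    rw [List.isChain_cons_cons] at hc
    have hbc := h2 c (by simp)
    have : c = b + 1 := by
      rcases hc.1 with h | h
      · exact h
      · omega
    subst this
    rw [List.length_cons, List.range'_succ]
    rw [← ih (b + 1) hc.2 (fun x hx => h1 x (by simp [hx])) (fun x hx => by
      have h3 := h2 x (by simp [hx])
      have h4 : x ≠ b + 1 := by
        rintro rfl
        exact (List.nodup_cons.1 hnd).1 hx
      omega) (by omega) (List.nodup_cons.1 hnd).2]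

theorem range'_chain (a m : ℕ) : (List.range' a m).IsChain r :=
  (List.isChain_range' a m 1).imp fun _ _ h => Or.inl h

/-- the possible prefixes -/
def G (a m k : ℕ) : Set (List ℕ) :=
  {l | l ∈ P (a + k + 1) (m - k) ∧ (k = 0 → l.getLast? ≠ some (a + 1))}

theorem F_eq_image (a m k : ℕ) (hk : k ≤ m) :
    F a (m + 1) (a + k) = (fun l => l ++ List.range' a (k + 1)) '' G a m k := by
  have hsplit : List.range' a (m + 1) = List.range' a (k + 1) ++ List.range' (a + k + 1) (m - k) := by
    have := @List.range'_append_1 a (k + 1) (m - k)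
    rw [show a + (k + 1) = a + k + 1 by ring] at this
    rw [this]
    congr 1
    omega
  ext l
  simp only [Set.mem_image]
  constructor
  · rintro ⟨⟨hp, hc⟩, hlast⟩
    have ha : a ∈ l := hp.symm.subset (by rw [List.mem_range'_1]; omega)
    obtain ⟨s, t, rfl⟩ := List.append_of_mem ha
    have hnd : (s ++ a :: t).Nodup := hp.nodup_iff.2 List.nodup_range'
    have hnd2 : (a :: t).Nodup := (List.nodup_append.1 hnd).2.1
    have hc2 := (List.isChain_append.1 hc)
    have hge : ∀ x ∈ t, a ≤ x := by
      intro x hx
      have := hp.subset (List.mem_append_right s (List.mem_cons_of_mem a hx))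
      rw [List.mem_range'_1] at this
      exact this.1
    have ht : t = List.range' (a + 1) t.length := by
      apply suffix_eq a t a hc2.2.1 hge _ le_rfl (List.nodup_cons.1 hnd2).2
      intro x hx
      have h1 := hge x hx
      have h2 : x ≠ a := by
        rintro rfl
        exact (List.nodup_cons.1 hnd2).1 hx
      omega
    have hat : a :: t = List.range' a (t.length + 1) := by
      rw [List.range'_succ, ← ht]
    have hlen : t.length = k := by
      rw [hat] at hlast
      rw [List.getLast?_append, List.getLast?_range'] at hlast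
      simp at hlast
      omega
    rw [hlen] at hat
    refine ⟨s, ⟨⟨?_, hc2.1⟩, ?_⟩, by rw [← hat]⟩
    · rw [hat, hsplit] at hp
      exact (List.perm_append_right_iff _).1 (hp.trans List.perm_append_comm)
    · rintro rfl h
      have := hc2.2.2 (a + 1) h a rfl
      rcases this with h | h <;> omega
  · rintro ⟨s, ⟨⟨hp, hc⟩, hl⟩, rfl⟩
    refine ⟨⟨?_, ?_⟩, ?_⟩
    · rw [hsplit]
      exact (hp.append_right _).trans List.perm_append_comm
    · show List.IsChain r (s ++ List.range' a (k + 1))
      rw [List.isChain_append]
      refine ⟨hc, range'_chain _ _, ?_⟩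
      intro x hx y hy
      rw [List.range'_succ] at hy
      simp at hy
      subst hy
      have hxm := hp.subset (List.mem_of_mem_getLast? hx)
      rw [List.mem_range'_1] at hxm
      right
      rcases Nat.eq_zero_or_pos k with h | h
      · have := hl h
        have : x ≠ a + 1 := by
          rintro rfl
          exact this hx
        omega
      · omega
    · show (s ++ List.range' a (k + 1)).getLast? = _
      rw [List.getLast?_append, List.getLast?_range']
      simp

theorem ncard_F (a m k : ℕ) (hk : k ≤ m) : (F a (m + 1) (a + k)).ncard = (G a m k).ncard := by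
  rw [F_eq_image a m k hk]
  exact Set.ncard_image_of_injective _ (List.append_left_injective _)

theorem ncard_G_succ (a m k : ℕ) (hk : 0 < k) :
    (G a m k).ncard = (P (a + k + 1) (m - k)).ncard := by
  congr 1
  ext l
  unfold G
  simp only [Set.mem_ofPred_eq]
  constructor
  · intro h; exact h.1
  · intro h; exact ⟨h, fun h0 => by omega⟩

theorem ncard_G_zero (a m : ℕ) :
    (G a m 0).ncard = (P (a + 1) m).ncard - (F (a + 1) m (a + 1)).ncard := by
  have h : G a m 0 = P (a + 1) m \ F (a + 1) m (a + 1) := by
    ext l
    unfold G F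
    simp only [Set.mem_ofPred_eq, Set.mem_sdiff, add_zero, Nat.sub_zero, forall_const]
    tauto
  rw [h, Set.ncard_sdiff (F_subset _ _ _) (F_finite _ _ _)]

theorem getLast?_mem {a m : ℕ} {l : List ℕ} (hl : l ∈ P a (m + 1)) :
    ∃ k < m + 1, l.getLast? = some (a + k) := by
  have hlen := hl.1.length_eq
  rw [List.length_range'] at hlen
  have hne : l ≠ [] := by
    rintro rfl
    simp at hlen
  rw [List.getLast?_eq_some_getLast hne]
  have hm := hl.1.subset (List.getLast_mem hne)
  rw [List.mem_range'_1] at hm
  exact ⟨l.getLast hne - a, by omega, by congr 1; omega⟩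

/-- Hamiltonian paths ending in a prescribed set of vertices -/
theorem ncard_sum (a m : ℕ) (S : Finset ℕ) (_hS : ∀ k ∈ S, k < m + 1) :
    {l | l ∈ P a (m + 1) ∧ ∃ k ∈ S, l.getLast? = some (a + k)}.ncard =
      ∑ k ∈ S, (F a (m + 1) (a + k)).ncard := by
  classical
  have hfin := P_finite a (m + 1)
  let Pf : Finset (List ℕ) := hfin.toFinset
  have h1 : {l | l ∈ P a (m + 1) ∧ ∃ k ∈ S, l.getLast? = some (a + k)} =
      ((S.biUnion fun k => Pf.filter fun l => l.getLast? = some (a + k) : Finset (List ℕ)) :
        Set (List ℕ)) := by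
    ext l
    simp only [Set.mem_ofPred_eq, Finset.coe_biUnion, Set.mem_iUnion, Finset.mem_coe,
      Finset.mem_filter, Pf, Set.Finite.mem_toFinset]
    constructor
    · rintro ⟨h1, k, hk, h2⟩; exact ⟨k, hk, h1, h2⟩
    · rintro ⟨k, hk, h1, h2⟩; exact ⟨h1, k, hk, h2⟩
  rw [h1, Set.ncard_coe_finset, Finset.card_biUnion]
  · apply Finset.sum_congr rfl
    intro k _
    rw [← Set.ncard_coe_finset]
    congr 1
    ext l
    simp only [Finset.coe_filter, Set.mem_ofPred_eq, Pf, Set.Finite.mem_toFinset, F]
  · intro x _ y _ hxy
    simp only [Function.onFun]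
    rw [Finset.disjoint_left]
    intro l hl hl'
    rw [Finset.mem_filter] at hl hl'
    rw [hl.2] at hl'
    have := Option.some.inj hl'.2
    omega

theorem ncard_P_succ (a m : ℕ) :
    (P a (m + 1)).ncard = ∑ k ∈ Finset.range (m + 1), (F a (m + 1) (a + k)).ncard := by
  rw [← ncard_sum a m (Finset.range (m + 1)) (fun k hk => Finset.mem_range.1 hk)]
  congr 1
  ext l
  simp only [Set.mem_ofPred_eq]
  constructor
  · intro h
    obtain ⟨k, hk, hl⟩ := getLast?_mem h
    exact ⟨h, k, Finset.mem_range.2 hk, hl⟩
  · intro h; exact h.1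

/-- `1, 1, 1, 3, 5, 9, 17, 31, ...` -/
def trib : ℕ → ℕ
  | 0 => 1
  | 1 => 1
  | 2 => 1
  | n + 3 => trib n + trib (n + 1) + trib (n + 2)

def e : ℕ → ℕ
  | 0 => 0
  | n + 1 => trib n - e n

theorem trib_e (n : ℕ) : 2 * e (n + 2) + trib n = trib (n + 2) ∧ e n ≤ trib n := by
  induction n using Nat.strong_induction_on with
  | _ n ih =>
    match n with
    | 0 => decide
    | 1 => decide
    | n + 2 =>
      have h0 := (ih n (by omega)).1
      have h1 := ih (n + 1) (by omega)
      have h2 : e (n + 2 + 2) = trib (n + 1 + 2) - e (n + 1 + 2) := rfl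
      have h3 : trib (n + 1 + 2) = trib n + trib (n + 1) + trib (n + 2) := rfl
      have h4 : trib (n + 2 + 2) = trib (n + 1) + trib (n + 2) + trib (n + 1 + 2) := rfl
      have h5 : e (n + 1 + 2) = trib (n + 2) - e (n + 2) := rfl
      omega

theorem trib_sum (m : ℕ) : trib (m + 1) = e (m + 1) + ∑ i ∈ Finset.range m, trib i := by
  induction m with
  | zero => decide
  | succ m ih =>
    rw [Finset.sum_range_succ]
    have h2 : e (m + 1 + 1) = trib (m + 1) - e (m + 1) := rfl
    have h3 := trib_e m
    have h4 : e (m + 2) = e (m + 1 + 1) := rfl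
    have h5 : trib (m + 2) = trib (m + 1 + 1) := rfl
    have h6 := trib_e (m + 1)
    omega

theorem main_count (m : ℕ) : ∀ a, (P a m).ncard = trib m ∧ (F a m a).ncard = e m := by
  induction m using Nat.strong_induction_on with
  | _ m ih =>
    match m with
    | 0 =>
      intro a
      have h1 : P a 0 = {[]} := by
        ext l
        unfold P
        simp only [Set.mem_ofPred_eq, List.range'_zero, List.perm_nil, Set.mem_singleton_iff]
        constructor
        · intro h; exact h.1
        · rintro rfl; exact ⟨rfl, List.isChain_nil⟩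
      have h2 : F a 0 a = ∅ := by
        ext l
        unfold F
        rw [h1]
        simp only [Set.mem_ofPred_eq, Set.mem_singleton_iff, Set.mem_empty_iff_false, iff_false]
        rintro ⟨rfl, h⟩
        simp at h
      rw [h1, h2]
      simp [trib, e]
    | m + 1 =>
      intro a
      have hF : (F a (m + 1) a).ncard = e (m + 1) := by
        have h := ncard_F a m 0 (Nat.zero_le _)
        rw [add_zero] at h
        rw [h, ncard_G_zero, (ih m (by omega) (a + 1)).1, (ih m (by omega) (a + 1)).2]
        rfl
      refine ⟨?_, hF⟩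
      rw [ncard_P_succ, Finset.sum_range_succ', add_zero, hF, trib_sum, add_comm]
      congr 1
      rw [← Finset.sum_range_reflect]
      apply Finset.sum_congr rfl
      intro k hk
      rw [Finset.mem_range] at hk
      rw [ncard_F a m _ (by omega), ncard_G_succ a m _ (by omega), (ih _ (by omega) _).1]
      congr 1
      omega

/-- subset sums -/
theorem subset_sum (f : ℕ → ℕ) (m : ℕ) (hf : ∀ k < m, f k ≤ 1 + ∑ i ∈ Finset.range k, f i) :
    ∀ h ≤ ∑ i ∈ Finset.range m, f i, ∃ S ⊆ Finset.range m, ∑ i ∈ S, f i = h := by
  induction m with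
  | zero =>
    intro h hh
    rw [Finset.sum_range_zero] at hh
    exact ⟨∅, by simp, by rw [Finset.sum_empty]; omega⟩
  | succ m ih =>
    intro h hh
    rw [Finset.sum_range_succ] at hh
    have hm := hf m (by omega)
    have ih' := ih (fun k hk => hf k (by omega))
    rcases Nat.lt_or_ge (∑ i ∈ Finset.range m, f i) h with h1 | h1
    · obtain ⟨S, hS, hs⟩ := ih' (h - f m) (by omega)
      have hmS : m ∉ S := fun h' => by
        have := Finset.mem_range.1 (hS h')
        omega
      refine ⟨insert m S, ?_, ?_⟩
      · intro x hx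
        rcases Finset.mem_insert.1 hx with rfl | hx
        · simp
        · have := Finset.mem_range.1 (hS hx)
          exact Finset.mem_range.2 (by omega)
      · rw [Finset.sum_insert hmS, hs]
        omega
    · obtain ⟨S, hS, hs⟩ := ih' h h1
      exact ⟨S, hS.trans (Finset.range_subset_range.2 (by omega)), hs⟩

theorem trib_le_sum (k : ℕ) : trib k ≤ 1 + ∑ i ∈ Finset.range k, trib i := by
  match k with
  | 0 => decide
  | 1 => decide
  | 2 => decide
  | k + 3 =>
    rw [Finset.sum_range_succ, Finset.sum_range_succ, Finset.sum_range_succ]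
    have : trib (k + 3) = trib k + trib (k + 1) + trib (k + 2) := rfl
    omega

/-- every `h ≤ trib (m + 1)` is the number of Hamiltonian paths of `[1, m + 1]` with last vertex
in a suitable set -/
theorem exists_ends (m h : ℕ) (hh : h ≤ trib (m + 1)) :
    ∃ S : Finset ℕ, (∀ k ∈ S, k < m + 1) ∧
      {l | l ∈ P 1 (m + 1) ∧ ∃ k ∈ S, l.getLast? = some (1 + k)}.ncard = h := by
  classical
  let f : ℕ → ℕ := fun i => if i = m then e (m + 1) else trib i
  have hsum : ∀ k ≤ m, ∑ i ∈ Finset.range k, f i = ∑ i ∈ Finset.range k, trib i := by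
    intro k hk
    apply Finset.sum_congr rfl
    intro i hi
    rw [Finset.mem_range] at hi
    simp only [f]
    rw [if_neg (by omega)]
  have htot : ∑ i ∈ Finset.range (m + 1), f i = trib (m + 1) := by
    rw [Finset.sum_range_succ, hsum m le_rfl, trib_sum]
    simp only [f, if_true]
    ring
  obtain ⟨T, hT, hs⟩ := subset_sum f (m + 1) (by
    intro k hk
    rw [hsum k (by omega)]
    simp only [f]
    split_ifs with h1
    · subst h1
      have h2 := trib_sum k
      rcases k with _ | k
      · decide
      · have h3 := (trib_e k).1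
        have h4 : trib (k + 1 + 1) = trib (k + 2) := rfl
        have h5 : e (k + 1 + 1) = e (k + 2) := rfl
        omega
    · exact trib_le_sum k) h (by rw [htot]; exact hh)
  -- weight of the end vertex `1 + (m - i)` is `f i`
  have hcard : ∀ i < m + 1, (F 1 (m + 1) (1 + (m - i))).ncard = f i := by
    intro i hi
    rw [ncard_F 1 m (m - i) (by omega)]
    simp only [f]
    split_ifs with h1
    · subst h1
      rw [Nat.sub_self, ← ncard_F 1 i 0 (by omega)]
      exact (main_count (i + 1) 1).2
    · rw [ncard_G_succ 1 m _ (by omega), (main_count _ _).1]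
      congr 1
      omega
  refine ⟨T.image fun i => m - i, ?_, ?_⟩
  · intro k hk
    obtain ⟨i, _, rfl⟩ := Finset.mem_image.1 hk
    omega
  · rw [ncard_sum 1 m _ (by
      intro k hk
      obtain ⟨i, _, rfl⟩ := Finset.mem_image.1 hk
      omega), Finset.sum_image, ← hs]
    · apply Finset.sum_congr rfl
      intro i hi
      exact hcard i (Finset.mem_range.1 (hT hi))
    · intro i hi j hj hij
      have h1 := Finset.mem_range.1 (hT hi)
      have h2 := Finset.mem_range.1 (hT hj)
      simp only at hij
      omega

end Pool.Agent.Y351.HC
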