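import Mathlib
import Pool.Agent.Y351.HC.Basic
import Pool.Agent.Y351.HC.Paths

/-!
Every `h ≤ trib n` is the number of Hamiltonian circuits of a tournament on `n + 2` vertices.
-/

set_option autoImplicit false

namespace Pool.Agent.Y351.HC

open Pool.Agent.Results.MP_9038fc_co.Disproof (IsTournament hamCount maxHam)

/-- arcs of the constructed tournament on `0, ..., n + 1` -/
def arc (n : ℕ) (S : Finset ℕ) (i j : ℕ) : Bool :=
  if i = 0 then decide (1 ≤ j ∧ j ≤ n)
  else if j = 0 then decide (i = n + 1)
  else if i = n + 1 then decide (j ≠ n + 1 ∧ ¬ ∃ k ∈ S, j = 1 + k)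
  else if j = n + 1 then decide (∃ k ∈ S, i = 1 + k)
  else decide (j = i + 1 ∨ j + 2 ≤ i)

theorem arc_tournament (n : ℕ) (S : Finset ℕ) :
    IsTournament (fun i j : Fin (n + 2) => arc n S i.val j.val = true) := by
  constructor
  · intro v
    simp only
    generalize v.val = i
    unfold arc
    by_cases hi : i = 0
    · rw [if_pos hi]
      simp only [decide_eq_true_eq]
      omega
    · rw [if_neg hi, if_neg hi]
      by_cases hi' : i = n + 1
      · rw [if_pos hi']
        simp only [decide_eq_true_eq]
        intro h
        exact h.1 hi'
      · rw [if_neg hi', if_neg hi']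
        simp only [decide_eq_true_eq]
        omega
  · intro v w hvw
    have h1 := v.2
    have h2 := w.2
    have h3 : v.val ≠ w.val := fun h => hvw (Fin.ext h)
    simp only
    generalize v.val = i at *
    generalize w.val = j at *
    clear hvw v w
    unfold arc
    by_cases hi : i = 0
    · subst hi
      have hj : ¬ (j = 0) := fun h => h3 h.symm
      rw [if_pos rfl, if_neg hj, if_pos rfl]
      simp only [decide_eq_true_eq]
      omega
    · by_cases hj : j = 0
      · subst hj
        rw [if_neg hi, if_pos rfl, if_pos rfl]
        simp only [decide_eq_true_eq]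
        omega
      · rw [if_neg hi, if_neg hj, if_neg hj, if_neg hi]
        by_cases hi' : i = n + 1
        · have hj' : ¬ (j = n + 1) := fun h => h3 (hi'.trans h.symm)
          rw [if_pos hi', if_neg hj', if_pos hi']
          simp only [decide_eq_true_eq]
          exact ⟨fun h => h.2, fun h => ⟨hj', h⟩⟩
        · by_cases hj' : j = n + 1
          · rw [if_neg hi', if_pos hj', if_pos hj']
            simp only [decide_eq_true_eq]
            constructor
            · intro h h'; exact h'.2 h
            · intro h
              by_contra h'
              exact h ⟨hi', h'⟩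
          · rw [if_neg hi', if_neg hj', if_neg hj', if_neg hi']
            simp only [decide_eq_true_eq]
            omega

theorem isChain_congr_mem {R R' : ℕ → ℕ → Prop} {l : List ℕ}
    (h : ∀ x ∈ l, ∀ y ∈ l, (R x y ↔ R' x y)) : l.IsChain R ↔ l.IsChain R' := by
  induction l with
  | nil => simp
  | cons a l ih =>
    rw [List.isChain_cons, List.isChain_cons, ih (fun x hx y hy => h x (by simp [hx]) y (by simp [hy]))]
    refine and_congr_left fun _ => ?_
    refine forall_congr' fun y => ?_
    refine forall_congr' fun hy => ?_
    exact h a (by simp) y (by simp [List.mem_of_mem_head? hy])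

theorem HL_arc (n : ℕ) (S : Finset ℕ) :
    HL (n + 3) (arc (n + 1) S) = (fun l => l ++ [n + 2]) ''
      {l | l ∈ P 1 (n + 1) ∧ ∃ k ∈ S, l.getLast? = some (1 + k)} := by
  have hr : List.range' 1 (n + 2) = List.range' 1 (n + 1) ++ [n + 2] := by
    rw [List.range'_1_concat]
    congr 2
    omega
  -- arcs inside
  have harc : ∀ l : List ℕ, l.Perm (List.range' 1 (n + 1)) →
      (l.IsChain (fun a b => arc (n + 1) S a b = true) ↔ l.IsChain r) := by
    intro l hl
    apply isChain_congr_mem
    intro x hx y hy
    have h1 := hl.subset hx
    have h2 := hl.subset hy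
    rw [List.mem_range'_1] at h1 h2
    unfold arc r
    rw [if_neg (by omega), if_neg (by omega), if_neg (by omega), if_neg (by omega)]
    simp only [decide_eq_true_eq]
  -- full circuit
  have hfull : ∀ l : List ℕ, l.Perm (List.range' 1 (n + 1)) →
      (List.IsChain (fun a b => arc (n + 1) S a b = true) (0 :: ((l ++ [n + 2]) ++ [0])) ↔
        l.IsChain r ∧ ∃ k ∈ S, l.getLast? = some (1 + k)) := by
    intro l hl
    have hlen := hl.length_eq
    rw [List.length_range'] at hlen
    have hne : l ≠ [] := by
      rintro rfl
      simp at hlen
    have hmem : ∀ x ∈ l, 1 ≤ x ∧ x ≤ n + 1 := by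
      intro x hx
      have := hl.subset hx
      rw [List.mem_range'_1] at this
      omega
    rw [List.isChain_cons, List.append_assoc, List.isChain_append, harc l hl]
    have hlast : l.getLast? = some (l.getLast hne) := List.getLast?_eq_some_getLast hne
    have hhead : l.head? = some (l.head hne) := List.head?_eq_some_head hne
    constructor
    · rintro ⟨-, h1, -, h2⟩
      refine ⟨h1, ?_⟩
      have h3 := h2 (l.getLast hne) hlast (n + 2) rfl
      have h4 := hmem _ (List.getLast_mem hne)
      unfold arc at h3
      rw [if_neg (by omega), if_neg (by omega), if_neg (by omega), if_pos rfl] at h3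
      simp only [decide_eq_true_eq] at h3
      obtain ⟨k, hk, h5⟩ := h3
      exact ⟨k, hk, by rw [hlast, h5]⟩
    · rintro ⟨h1, k, hk, h2⟩
      refine ⟨?_, h1, ?_, ?_⟩
      · intro y hy
        rw [List.head?_append, hhead] at hy
        have hy' : l.head hne = y := by simpa using hy
        subst hy'
        have h4 := hmem _ (List.head_mem hne)
        unfold arc
        rw [if_pos rfl]
        simp only [decide_eq_true_eq]
        exact h4
      · rw [List.cons_append, List.nil_append, List.isChain_cons_cons]
        refine ⟨?_, List.isChain_singleton _⟩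
        unfold arc
        rw [if_neg (by omega), if_pos rfl]
        simp
      · intro x hx y hy
        have hy' : n + 2 = y := by simpa using hy
        subst hy'
        have hx' : x = 1 + k := by
          rw [h2] at hx
          exact (Option.some.inj hx).symm
        have h4 := hmem x (List.mem_of_mem_getLast? hx)
        unfold arc
        rw [if_neg (by omega), if_neg (by omega), if_neg (by omega), if_pos rfl]
        simp only [decide_eq_true_eq]
        exact ⟨k, hk, hx'⟩
  ext l
  simp only [Set.mem_image, Set.mem_ofPred_eq]
  constructor
  · rintro ⟨hp, hc⟩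
    have hp' : l.Perm (List.range' 1 (n + 2)) := hp
    rcases List.eq_nil_or_concat l with rfl | ⟨s, b, rfl⟩
    · have := hp'.length_eq
      simp at this
    · rw [List.concat_eq_append] at *
      have hb : b = n + 2 := by
        have hcc := hc
        rw [List.isChain_cons, List.append_assoc, List.isChain_append] at hcc
        have h1 := hcc.2.2.1
        rw [List.cons_append, List.nil_append, List.isChain_cons_cons] at h1
        have h2 := h1.1
        have hb1 := hp'.subset (List.mem_append_right s (List.mem_singleton_self b))
        rw [List.mem_range'_1] at hb1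
        unfold arc at h2
        rw [if_neg (by omega), if_pos rfl] at h2
        simpa using h2
      subst hb
      rw [hr] at hp'
      have hs := (List.perm_append_right_iff _).1 hp'
      have := (hfull s hs).1 hc
      exact ⟨s, ⟨⟨hs, this.1⟩, this.2⟩, rfl⟩
  · rintro ⟨s, ⟨⟨hs, hc⟩, hk⟩, rfl⟩
    refine ⟨?_, (hfull s hs).2 ⟨hc, hk⟩⟩
    show (s ++ [n + 2]).Perm (List.range' 1 (n + 2))
    rw [hr]
    exact hs.append_right _

theorem exists_tournament (n h : ℕ) (hh : h ≤ trib (n + 1)) :
    ∃ adj : Fin (n + 3) → Fin (n + 3) → Prop, IsTournament adj ∧ hamCount adj = h := by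
  obtain ⟨S, -, hS⟩ := exists_ends n h hh
  refine ⟨_, arc_tournament (n + 1) S, ?_⟩
  rw [hamCount_eq (by omega) _ (arc (n + 1) S) (fun _ _ => Iff.rfl), HL_arc,
    Set.ncard_image_of_injective _ (List.append_left_injective _), hS]

end Pool.Agent.Y351.HC
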