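import Mathlib
import Pool.Agent.Y351.HC.Basic

/-!
Counting Hamiltonian circuits by depth-first search, for all tournaments at once.
-/

set_option autoImplicit false

namespace Pool.Agent.Y351.HC

open Pool.Agent.Results.MP_9038fc_co.Disproof (IsTournament hamCount maxHam tt testBit_tt)

def enum (A : ℕ → ℕ → Bool) : ℕ → ℕ → List ℕ → List (List ℕ)
  | 0, last, _ => if A last 0 then [[]] else []
  | k + 1, last, av =>
      av.flatMap fun w => if A last w then (enum A k w (av.erase w)).map (w :: ·) else []

def cnt (A : ℕ → ℕ → Bool) : ℕ → ℕ → List ℕ → ℕ
  | 0, last, _ => if A last 0 then 1 else 0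
  | k + 1, last, av =>
      (av.map fun w => if A last w then cnt A k w (av.erase w) else 0).sum

theorem length_enum (A : ℕ → ℕ → Bool) (k : ℕ) (last : ℕ) (av : List ℕ) :
    (enum A k last av).length = cnt A k last av := by
  induction k generalizing last av with
  | zero => unfold enum cnt; split_ifs <;> rfl
  | succ k ih =>
    unfold enum cnt
    rw [List.length_flatMap]
    congr 1
    apply List.map_congr_left
    intro w _
    by_cases h : A last w
    · simp [h, ih]
    · simp [h]

theorem nodup_enum (A : ℕ → ℕ → Bool) (k : ℕ) (last : ℕ) (av : List ℕ)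
    (hav : av.Nodup) : (enum A k last av).Nodup := by
  induction k generalizing last av with
  | zero => unfold enum; split_ifs <;> simp
  | succ k ih =>
    unfold enum
    rw [List.nodup_flatMap]
    constructor
    · intro w _
      split_ifs
      · exact (ih w _ (hav.erase w)).map (List.cons_injective)
      · simp
    · refine List.Pairwise.imp_of_mem ?_ hav
      intro a b _ _ hab
      simp only [Function.onFun]
      intro x hx hx'
      split_ifs at hx with h1
      · split_ifs at hx' with h2
        · simp only [List.mem_map] at hx hx'
          obtain ⟨y, -, rfl⟩ := hx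
          obtain ⟨z, -, hz⟩ := hx'
          exact hab (by simpa using (List.cons.inj hz).1.symm)
        · simp at hx'
      · simp at hx

theorem mem_enum (A : ℕ → ℕ → Bool) (k : ℕ) (last : ℕ) (av : List ℕ)
    (hl : av.length = k) (l : List ℕ) :
    l ∈ enum A k last av ↔
      l.Perm av ∧ List.IsChain (fun a b => A a b = true) (last :: (l ++ [0])) := by
  induction k generalizing last av l with
  | zero =>
    unfold enum
    have : av = [] := List.length_eq_zero_iff.mp hl
    subst this
    by_cases h : A last 0
    · simp only [h, if_true, List.mem_singleton, List.perm_nil]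
      constructor
      · rintro rfl; simp [h]
      · rintro ⟨rfl, _⟩; rfl
    · simp only [h, List.perm_nil]
      constructor
      · intro h'; simp at h'
      · rintro ⟨rfl, h'⟩
        simp at h'
        exact absurd h' h
  | succ k ih =>
    unfold enum
    rw [List.mem_flatMap]
    constructor
    · rintro ⟨w, hw, hx⟩
      split_ifs at hx with h1
      · simp only [List.mem_map] at hx
        obtain ⟨y, hy, rfl⟩ := hx
        rw [ih w (av.erase w) (by rw [List.length_erase_of_mem hw, hl]; rfl)] at hy
        refine ⟨?_, ?_⟩
        · exact ((hy.1.cons w).trans (List.perm_cons_erase hw).symm)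
        · simp only [List.cons_append, List.isChain_cons_cons]
          exact ⟨h1, hy.2⟩
      · simp at hx
    · rintro ⟨hp, hc⟩
      cases l with
      | nil =>
        have := hp.length_eq
        rw [hl] at this
        simp at this
      | cons w y =>
        have hw : w ∈ av := hp.subset (by simp)
        simp only [List.cons_append, List.isChain_cons_cons] at hc
        refine ⟨w, hw, ?_⟩
        rw [if_pos hc.1]
        simp only [List.mem_map]
        refine ⟨y, ?_, rfl⟩
        rw [ih w (av.erase w) (by rw [List.length_erase_of_mem hw, hl]; rfl)]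
        refine ⟨?_, hc.2⟩
        have := hp.trans (List.perm_cons_erase hw)
        exact (List.perm_cons w).mp this

theorem HL_ncard (n : ℕ) (A : ℕ → ℕ → Bool) (av : List ℕ) (hav : av = List.range' 1 (n - 1)) :
    (HL n A).ncard = cnt A (n - 1) 0 av := by
  subst hav
  rw [← length_enum]
  have hnd : (enum A (n - 1) 0 (List.range' 1 (n - 1))).Nodup :=
    nodup_enum A _ 0 _ List.nodup_range'
  rw [← List.toFinset_card_of_nodup hnd, ← Set.ncard_coe_finset]
  congr 1
  ext l
  simp only [HL, Set.mem_ofPred_eq, List.coe_toFinset]
  rw [mem_enum A _ 0 _ List.length_range']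

theorem cnt_le (A : ℕ → ℕ → Bool) (k : ℕ) (last : ℕ) (av : List ℕ) (hl : av.length = k) :
    cnt A k last av ≤ k.factorial := by
  induction k generalizing last av with
  | zero => unfold cnt; split_ifs <;> simp
  | succ k ih =>
    unfold cnt
    have h1 : ∀ x ∈ (av.map fun w => if A last w then cnt A k w (av.erase w) else 0),
        x ≤ k.factorial := by
      intro x hx
      obtain ⟨w, hw, rfl⟩ := List.mem_map.1 hx
      split_ifs
      · exact ih w _ (by rw [List.length_erase_of_mem hw, hl]; rfl)
      · exact Nat.zero_le _
    have h2 := List.sum_le_card_nsmul _ _ h1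
    rw [List.length_map, hl, smul_eq_mul] at h2
    rw [Nat.factorial_succ]
    exact h2

/-! bit-parallel counters -/

def addc : ℕ → List ℕ → List ℕ
  | _, [] => []
  | c, b :: bs => if c = 0 then b :: bs else (b ^^^ c) :: addc (b &&& c) bs

def val (m : ℕ) : List ℕ → ℕ
  | [] => 0
  | b :: bs => (b.testBit m).toNat + 2 * val m bs

theorem length_addc (bs : List ℕ) (c : ℕ) : (addc c bs).length = bs.length := by
  induction bs generalizing c with
  | nil => rfl
  | cons b bs ih =>
    unfold addc
    split_ifs
    · rfl
    · simp [ih]

theorem val_addc (m : ℕ) (bs : List ℕ) (c : ℕ) :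
    val m (addc c bs) ≡ val m bs + (c.testBit m).toNat [MOD 2 ^ bs.length] := by
  induction bs generalizing c with
  | nil => simp [Nat.modEq_one]
  | cons b bs ih =>
    unfold addc
    split_ifs with h
    · subst h
      simp
      rfl
    · unfold val
      have h1 := (ih (b &&& c)).mul_left' 2
      have h2 := h1.add_left ((b ^^^ c).testBit m).toNat
      rw [List.length_cons, pow_succ, mul_comm (2 ^ bs.length) 2]
      refine h2.trans ?_
      rw [Nat.testBit_xor, Nat.testBit_land]
      have h3 : ((b.testBit m) ^^ (c.testBit m)).toNat + 2 * (val m bs + (b.testBit m && c.testBit m).toNat)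
          = (b.testBit m).toNat + 2 * val m bs + (c.testBit m).toNat := by
        cases b.testBit m <;> cases c.testBit m <;> simp <;> ring
      rw [h3]

theorem val_lt (m : ℕ) (bs : List ℕ) : val m bs < 2 ^ bs.length := by
  induction bs with
  | nil => simp [val]
  | cons b bs ih =>
    unfold val
    rw [List.length_cons, pow_succ]
    have : (b.testBit m).toNat ≤ 1 := by cases b.testBit m <;> simp
    omega

def run (T : ℕ → ℕ → ℕ) : ℕ → ℕ → List ℕ → ℕ → List ℕ → List ℕ
  | 0, last, _, ind, a => addc (ind &&& T last 0) a
  | k + 1, last, av, ind, a =>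
      av.foldl (fun a w => if ind &&& T last w = 0 then a else
        run T k w (av.erase w) (ind &&& T last w) a) a

theorem val_run (T : ℕ → ℕ → ℕ) (m L : ℕ) (k : ℕ) (last : ℕ) (av : List ℕ)
    (ind : ℕ) (a : List ℕ) (ha : a.length = L) :
    (run T k last av ind a).length = L ∧ val m (run T k last av ind a) ≡
      val m a + (ind.testBit m).toNat * cnt (fun i j => (T i j).testBit m) k last av
        [MOD 2 ^ L] := by
  induction k generalizing last av ind a with
  | zero =>
    unfold run cnt
    refine ⟨by rw [length_addc, ha], ?_⟩
    rw [← ha]
    refine (val_addc m a _).trans ?_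
    rw [Nat.testBit_land]
    cases ind.testBit m <;> cases (T last 0).testBit m <;> simp <;> rfl
  | succ k ih =>
    have key : ∀ (l : List ℕ) (a : List ℕ), a.length = L →
        (l.foldl (fun a w => if ind &&& T last w = 0 then a else
          run T k w (av.erase w) (ind &&& T last w) a) a).length = L ∧
        val m (l.foldl (fun a w => if ind &&& T last w = 0 then a else
          run T k w (av.erase w) (ind &&& T last w) a) a) ≡
        val m a + (ind.testBit m).toNat * (l.map fun w => if (T last w).testBit m then
          cnt (fun i j => (T i j).testBit m) k w (av.erase w) else 0).sum [MOD 2 ^ L] := by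
      intro l
      induction l with
      | nil => intro a ha; simp [ha]; rfl
      | cons w l ihl =>
        intro a ha
        rw [List.foldl_cons, List.map_cons, List.sum_cons]
        have hlen : (if ind &&& T last w = 0 then a else
          run T k w (av.erase w) (ind &&& T last w) a).length = L := by
          split_ifs
          · exact ha
          · exact (ih w _ _ a ha).1
        refine ⟨(ihl _ hlen).1, ?_⟩
        refine (ihl _ hlen).2.trans ?_
        by_cases h : ind &&& T last w = 0
        · rw [if_pos h]
          have h2 : (ind &&& T last w).testBit m = false := by rw [h]; simp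
          rw [Nat.testBit_land] at h2
          cases hi : ind.testBit m
          · simp; rfl
          · rw [hi] at h2
            simp only [Bool.true_and] at h2
            simp [h2]; rfl
        · rw [if_neg h]
          have h3 := (ih w (av.erase w) (ind &&& T last w) a ha).2
          rw [Nat.testBit_land] at h3
          refine (h3.add_right _).trans ?_
          cases hi : ind.testBit m
          · simp; rfl
          · cases ht : (T last w).testBit m
            · simp; rfl
            · simp only [Bool.and_self, Bool.toNat_true, one_mul, if_true]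
              rw [add_assoc]
    unfold run
    refine ⟨(key av a ha).1, (key av a ha).2.trans ?_⟩
    rw [cnt]

/-! the same functions with forced evaluation -/

def addf : ℕ → List ℕ → List ℕ
  | _, [] => []
  | c, b :: bs => if c = 0 then b :: bs else
    match addf (b &&& c) bs with
    | [] => [b ^^^ c]
    | b' :: bs' => (b ^^^ c) :: b' :: bs'

theorem addf_eq (bs : List ℕ) (c : ℕ) : addf c bs = addc c bs := by
  induction bs generalizing c with
  | nil => rfl
  | cons b bs ih =>
    unfold addf addc
    rw [ih]
    split_ifs
    · rfl
    · cases addc (b &&& c) bs <;> rfl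

def foldf (f : List ℕ → ℕ → List ℕ) : List ℕ → List ℕ → List ℕ
  | [], a => a
  | w :: l, a =>
    match f a w with
    | [] => foldf f l []
    | b :: bs => foldf f l (b :: bs)

theorem foldf_eq (f : List ℕ → ℕ → List ℕ) (l a : List ℕ) : foldf f l a = l.foldl f a := by
  induction l generalizing a with
  | nil => rfl
  | cons w l ih =>
    unfold foldf
    rw [List.foldl_cons, ← ih (f a w)]
    cases f a w <;> rfl

def runf (T : ℕ → ℕ → ℕ) : ℕ → ℕ → List ℕ → ℕ → List ℕ → List ℕ
  | 0, last, _, ind, a => addf (ind &&& T last 0) a
  | k + 1, last, av, ind, a =>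
      foldf (fun a w => if ind &&& T last w = 0 then a else
        runf T k w (av.erase w) (ind &&& T last w) a) av a

theorem runf_eq (T : ℕ → ℕ → ℕ) (k : ℕ) (last : ℕ) (av : List ℕ) (ind : ℕ) (a : List ℕ) :
    runf T k last av ind a = run T k last av ind a := by
  induction k generalizing last av ind a with
  | zero => unfold runf run; exact addf_eq _ _
  | succ k ih =>
    unfold runf run
    rw [foldf_eq]
    congr 1
    funext a w
    rw [ih]

/-- bit `m` is set iff the counter of tournament `m` shows `h` -/
def eqm (mask h : ℕ) : List ℕ → ℕ
  | [] => mask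
  | b :: bs => (if h % 2 = 1 then b else mask ^^^ b) &&& eqm mask (h / 2) bs

theorem eqm_spec (mask m : ℕ) (hm : mask.testBit m = true) (bs : List ℕ) (h : ℕ)
    (he : (eqm mask h bs).testBit m = true) : val m bs = h % 2 ^ bs.length := by
  induction bs generalizing h with
  | nil => simp [val, Nat.mod_one]
  | cons b bs ih =>
    unfold eqm at he
    rw [Nat.testBit_land, Bool.and_eq_true] at he
    unfold val
    rw [ih (h / 2) he.2, List.length_cons, pow_succ, mul_comm (2 ^ bs.length) 2, Nat.mod_mul]
    congr 1
    have h1 := he.1
    split_ifs at h1 with h2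
    · rw [h1, h2]; rfl
    · rw [Nat.testBit_xor, hm] at h1
      have : b.testBit m = false := by
        cases hb : b.testBit m
        · rfl
        · rw [hb] at h1; simp at h1
      rw [this]
      simp
      omega

def orAll (mask : ℕ) (bs : List ℕ) : List ℕ → ℕ
  | [] => 0
  | h :: hs => eqm mask h bs ||| orAll mask bs hs

theorem orAll_spec (mask m : ℕ) (hm : mask.testBit m = true) (bs : List ℕ) (hs : List ℕ)
    (he : (orAll mask bs hs).testBit m = true) : ∃ h ∈ hs, val m bs = h % 2 ^ bs.length := by
  induction hs with
  | nil => simp [orAll] at he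
  | cons h hs ih =>
    unfold orAll at he
    rw [Nat.testBit_lor, Bool.or_eq_true] at he
    rcases he with he | he
    · exact ⟨h, by simp, eqm_spec mask m hm bs h he⟩
    · obtain ⟨h', h1, h2⟩ := ih he
      exact ⟨h', by simp [h1], h2⟩

/-! arc tables -/

/-- position of the free pair `i < j` -/
def idx (i j : ℕ) : ℕ := (j - 1) * (j - 2) / 2 + (j - 2 - i)

/-- table of free pair number `k` -/
def tk (N mask u k : ℕ) : ℕ :=
  if k < N then tt N k else if u.testBit (k - N) then mask else 0

/-- arcs `i → j` for `i < j` -/
def up (n N mask u i j : ℕ) : ℕ :=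
  if j = i + 1 then mask else if i = 0 ∧ j + 1 = n then 0 else tk N mask u (idx i j)

def tab (n N mask u i j : ℕ) : ℕ :=
  if i < j then up n N mask u i j else if j < i then mask ^^^ up n N mask u j i else 0

def msk (N : ℕ) : ℕ := 2 ^ (2 ^ N) - 1

theorem testBit_msk (N m : ℕ) (hm : m < 2 ^ N) : (msk N).testBit m = true := by
  unfold msk
  rw [Nat.testBit_two_pow_sub_one]
  simp only [decide_eq_true_eq]
  exact hm

/-- the check: all counters show a number in `hs` -/
def chk (n N u L : ℕ) (av hs : List ℕ) : Bool :=
  orAll (msk N) (runf (tab n N (msk N) u) (n - 1) 0 av (msk N) (List.replicate L 0)) hs == msk N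

end Pool.Agent.Y351.HC
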