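import Mathlib
import Pool.Agent.Y351.HC.Basic
import Pool.Agent.Y351.HC.Enum

/-!
Relabelling a tournament along a Hamiltonian circuit.
-/

set_option autoImplicit false

namespace Pool.Agent.Y351.HC

open Pool.Agent.Results.MP_9038fc_co.Disproof (IsTournament hamCount maxHam tt testBit_tt)

theorem hamCount_relabel {n : ℕ} (adj : Fin n → Fin n → Prop) (σ : Equiv.Perm (Fin n)) :
    hamCount (fun i j => adj (σ i) (σ j)) = hamCount adj := by
  unfold hamCount
  rw [← Set.InjOn.ncard_image (s := {c : Equiv.Perm (Fin n) |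
    c.IsCycle ∧ c.support = Finset.univ ∧ ∀ v, adj (σ v) (σ (c v))}) (f := fun c => σ * c * σ⁻¹)]
  · congr 1
    ext c
    simp only [Set.mem_ofPred_eq, Set.mem_image]
    constructor
    · rintro ⟨c, ⟨hc, hs, ha⟩, rfl⟩
      refine ⟨hc.conj, ?_, ?_⟩
      · rw [Equiv.Perm.support_conj, hs]
        ext x
        simp
      · intro v
        have := ha (σ⁻¹ v)
        simpa [Equiv.Perm.mul_apply] using this
    · rintro ⟨hc, hs, ha⟩
      refine ⟨σ⁻¹ * c * σ, ⟨?_, ?_, ?_⟩, ?_⟩
      · have := hc.conj (g := σ⁻¹)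
        rwa [inv_inv] at this
      · have h1 := Equiv.Perm.support_conj (σ := σ⁻¹) (τ := c)
        rw [inv_inv] at h1
        rw [h1, hs]
        ext x
        simp
      · intro v
        have := ha (σ v)
        simpa [Equiv.Perm.mul_apply] using this
      · group
  · intro c _ c' _ h
    simpa using h

/-- a tournament with a Hamiltonian circuit can be relabelled so that the circuit is
`0, 1, ..., n - 1` -/
theorem exists_norm {m : ℕ} (hm : 1 ≤ m) (adj : Fin (m + 1) → Fin (m + 1) → Prop)
    (hT : IsTournament adj) (h0 : hamCount adj ≠ 0) :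
    ∃ A : ℕ → ℕ → Bool, (∀ i, A i i = false) ∧
      (∀ i j, i < m + 1 → j < m + 1 → i ≠ j → A j i = !A i j) ∧
      (∀ i, i < m → A i (i + 1) = true) ∧ A m 0 = true ∧
      hamCount adj = (HL (m + 1) A).ncard := by
  classical
  have hne : {c : Equiv.Perm (Fin (m + 1)) |
    c.IsCycle ∧ c.support = Finset.univ ∧ ∀ v, adj v (c v)}.Nonempty := by
    apply Set.nonempty_of_ncard_ne_zero
    exact h0
  obtain ⟨c, hc, hs, ha⟩ := hne
  have hinj := inj_pow (by omega) c hc hs 0
  let σ : Equiv.Perm (Fin (m + 1)) := Equiv.ofBijective _ (Finite.injective_iff_bijective.1 hinj)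
  have hσ : ∀ i : Fin (m + 1), σ i = (c ^ i.val) 0 := fun i => rfl
  let A : ℕ → ℕ → Bool := fun i j =>
    if h : i < m + 1 ∧ j < m + 1 then decide (adj (σ ⟨i, h.1⟩) (σ ⟨j, h.2⟩)) else false
  have hA' : ∀ i j : Fin (m + 1), A i.val j.val = decide (adj (σ i) (σ j)) := by
    intro i j
    show (if h : i.val < m + 1 ∧ j.val < m + 1 then
      decide (adj (σ ⟨i.val, h.1⟩) (σ ⟨j.val, h.2⟩)) else false) = _
    rw [dif_pos ⟨i.2, j.2⟩]
  have hA : ∀ i j : Fin (m + 1), A i.val j.val = true ↔ adj (σ i) (σ j) := by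
    intro i j
    rw [hA', decide_eq_true_eq]
  refine ⟨A, ?_, ?_, ?_, ?_, ?_⟩
  · intro i
    by_cases h : i < m + 1
    · have := hA' ⟨i, h⟩ ⟨i, h⟩
      simp only at this
      rw [this]
      simp [hT.1]
    · show (if h : i < m + 1 ∧ i < m + 1 then
        decide (adj (σ ⟨i, h.1⟩) (σ ⟨i, h.2⟩)) else false) = _
      rw [dif_neg (fun h' => h h'.1)]
  · intro i j hi hj hij
    have h1 := hA' ⟨i, hi⟩ ⟨j, hj⟩
    have h2 := hA' ⟨j, hj⟩ ⟨i, hi⟩
    simp only at h1 h2
    rw [h1, h2]
    have h3 := hT.2 (σ ⟨i, hi⟩) (σ ⟨j, hj⟩) (fun h => hij (congrArg Fin.val (σ.injective h)))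
    by_cases h4 : adj (σ ⟨i, hi⟩) (σ ⟨j, hj⟩)
    · have h5 := h3.1 h4
      simp [h4, h5]
    · have h5 : adj (σ ⟨j, hj⟩) (σ ⟨i, hi⟩) := by
        by_contra h6
        exact h4 (h3.2 h6)
      simp [h4, h5]
  · intro i hi
    have := hA ⟨i, by omega⟩ ⟨i + 1, by omega⟩
    simp only at this
    rw [this, hσ, hσ]
    simp only
    rw [pow_succ', Equiv.Perm.mul_apply]
    exact ha _
  · have := hA ⟨m, by omega⟩ 0
    simp only [Fin.val_zero] at this
    rw [this, hσ, hσ]
    simp only [Fin.val_zero, pow_zero, Equiv.Perm.coe_one, id_eq]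
    have h1 := ha ((c ^ m) 0)
    rw [← Equiv.Perm.mul_apply, ← pow_succ', pow_apply_eq (by omega) c hc hs 0] at h1
    exact h1
  · rw [← hamCount_relabel adj σ]
    exact hamCount_eq (by omega) _ A hA

/-- the free pair with number `k` -/
def inv (n k : ℕ) : ℕ × ℕ :=
  ((List.product (List.range n) (List.range n)).find? fun p =>
    decide (p.1 + 2 ≤ p.2 ∧ ¬ (p.1 = 0 ∧ p.2 + 1 = n) ∧ idx p.1 p.2 = k)).getD (0, 0)

theorem tk_spec (n N Nt : ℕ) (A : ℕ → ℕ → Bool) (hN : N ≤ Nt)
    (hinv : ∀ j < n, ∀ i < n, i + 2 ≤ j → ¬ (i = 0 ∧ j + 1 = n) →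
      idx i j < Nt ∧ inv n (idx i j) = (i, j)) :
    ∃ u < 2 ^ (Nt - N), ∃ m < 2 ^ N, ∀ i j, j < n → i + 2 ≤ j → ¬ (i = 0 ∧ j + 1 = n) →
      (tk N (msk N) u (idx i j)).testBit m = A i j := by
  let M : ℕ := Nat.ofBits (n := Nt) fun k => A (inv n k.val).1 (inv n k.val).2
  have hM : M < 2 ^ Nt := Nat.ofBits_lt_two_pow _
  refine ⟨M / 2 ^ N, ?_, M % 2 ^ N, Nat.mod_lt _ (by positivity), ?_⟩
  · rw [Nat.div_lt_iff_lt_mul (by positivity), ← pow_add, Nat.sub_add_cancel hN]
    exact hM
  · intro i j hj hij hne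
    obtain ⟨h1, h2⟩ := hinv j hj i (by omega) hij hne
    have h3 : M.testBit (idx i j) = A i j := by
      have := Nat.testBit_ofBits_lt (fun k : Fin Nt => A (inv n k.val).1 (inv n k.val).2)
        (idx i j) h1
      rw [this]
      simp only [h2]
    unfold tk
    split_ifs with h4 h5
    · rw [testBit_tt N _ _ h4 (Nat.mod_lt _ (by positivity)), Nat.testBit_mod_two_pow, h3]
      simp [h4]
    · rw [testBit_msk N _ (Nat.mod_lt _ (by positivity)), ← h3]
      rw [Nat.testBit_div_two_pow] at h5
      rw [← h5]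
      congr 1
      omega
    · rw [Nat.testBit_div_two_pow] at h5
      rw [← h3]
      have h6 : idx i j - N + N = idx i j := by omega
      rw [h6] at h5
      simp at h5
      rw [h5]
      simp

/-- the number of circuits lies in the list `hs` when all checks succeed -/
theorem spectrum_of_chk (m N Nt L : ℕ) (hm : 2 ≤ m) (hN : N ≤ Nt) (av hs : List ℕ)
    (hav : av = List.range' 1 m)
    (hinv : ∀ j < m + 1, ∀ i < m + 1, i + 2 ≤ j → ¬ (i = 0 ∧ j + 1 = m + 1) →
      idx i j < Nt ∧ inv (m + 1) (idx i j) = (i, j))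
    (hL : m.factorial < 2 ^ L) (hhs : ∀ h ∈ hs, h < 2 ^ L)
    (hchk : ∀ u < 2 ^ (Nt - N), chk (m + 1) N u L av hs = true)
    (adj : Fin (m + 1) → Fin (m + 1) → Prop) (hT : IsTournament adj) :
    hamCount adj = 0 ∨ hamCount adj ∈ hs := by
  by_cases h0 : hamCount adj = 0
  · exact Or.inl h0
  right
  obtain ⟨A, hirr, hanti, hsucc, hlast, hcount⟩ := exists_norm (by omega) adj hT h0
  obtain ⟨u, hu, c, hc, htk⟩ := tk_spec (m + 1) N Nt A hN hinv
  have hmask := testBit_msk N c hc
  have hup : ∀ i j, j < m + 1 → i < j → (up (m + 1) N (msk N) u i j).testBit c = A i j := by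
    intro i j hj hij
    unfold up
    split_ifs with h1 h2
    · rw [h1, hmask, hsucc i (by omega)]
    · obtain ⟨rfl, h3⟩ := h2
      have : j = m := by omega
      subst this
      rw [hanti j 0 (by omega) (by omega) (by omega), hlast]
      simp
    · exact htk i j hj (by omega) h2
  have htab : ∀ i j, i < m + 1 → j < m + 1 → (tab (m + 1) N (msk N) u i j).testBit c = A i j := by
    intro i j hi hj
    unfold tab
    split_ifs with h1 h2
    · exact hup i j hj h1
    · rw [Nat.testBit_xor, hmask, hup j i hi h2, hanti j i hj hi (by omega)]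
      simp
    · have : i = j := by omega
      subst this
      rw [hirr]
      simp
  -- the table computes the same number
  have hcnt : (HL (m + 1) A).ncard =
      cnt (fun i j => (tab (m + 1) N (msk N) u i j).testBit c) m 0 av := by
    have h1 := HL_ncard (m + 1) (fun i j => (tab (m + 1) N (msk N) u i j).testBit c) av
      (by rw [hav]; rfl)
    have h2 : HL (m + 1) A = HL (m + 1) (fun i j => (tab (m + 1) N (msk N) u i j).testBit c) := by
      ext l
      unfold HL
      simp only [Set.mem_ofPred_eq]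
      refine and_congr_right fun hp => ?_
      have hlt : ∀ x ∈ (0 :: (l ++ [0])), x < m + 1 := by
        intro x hx
        rw [List.mem_cons, List.mem_append, List.mem_singleton] at hx
        rcases hx with h | h | h
        · omega
        · have := hp.subset h
          rw [List.mem_range'_1] at this
          omega
        · omega
      constructor
      · intro h
        refine (List.isChain_iff_forall_rel_of_append_cons_cons.2 ?_)
        intro a b l₁ l₂ he
        have h3 := (List.isChain_iff_forall_rel_of_append_cons_cons.1 h) he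
        rw [htab a b (hlt a (by rw [he]; simp)) (hlt b (by rw [he]; simp))]
        exact h3
      · intro h
        refine (List.isChain_iff_forall_rel_of_append_cons_cons.2 ?_)
        intro a b l₁ l₂ he
        have h3 := (List.isChain_iff_forall_rel_of_append_cons_cons.1 h) he
        rw [htab a b (hlt a (by rw [he]; simp)) (hlt b (by rw [he]; simp))] at h3
        exact h3
    rw [h2, h1]
    rfl
  rw [hcount, hcnt]
  set q := cnt (fun i j => (tab (m + 1) N (msk N) u i j).testBit c) m 0 av with hq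
  have hqlt : q < 2 ^ L := by
    refine lt_of_le_of_lt (cnt_le _ m 0 av ?_) hL
    rw [hav, List.length_range']
  have hrun := val_run (tab (m + 1) N (msk N) u) c L m 0 av (msk N) (List.replicate L 0)
    (by simp)
  have hck := hchk u hu
  unfold chk at hck
  rw [beq_iff_eq, runf_eq, Nat.add_sub_cancel] at hck
  have h5 : (orAll (msk N) (run (tab (m + 1) N (msk N) u) m 0 av (msk N) (List.replicate L 0))
      hs).testBit c = true := by rw [hck]; exact hmask
  obtain ⟨h, hh, hv⟩ := orAll_spec (msk N) c hmask _ hs h5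
  rw [hrun.1, Nat.mod_eq_of_lt (hhs h hh)] at hv
  have hz : ∀ k, val c (List.replicate k 0) = 0 := by
    intro k
    induction k with
    | zero => rfl
    | succ k ih => rw [List.replicate_succ]; simp [val, ih]
  have h6 := hrun.2
  rw [hz, hmask, Bool.toNat_true, one_mul, zero_add, ← hq, hv] at h6
  have h7 : h = q := by
    unfold Nat.ModEq at h6
    rwa [Nat.mod_eq_of_lt (hhs h hh), Nat.mod_eq_of_lt hqlt] at h6
  rw [← h7]
  exact hh

end Pool.Agent.Y351.HC
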