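import Mathlib
import Pool.Agent.Y351.HC.Norm
import Pool.Agent.Y351.HC.Build

/-!
Exact sets of numbers of Hamiltonian circuits for at most 7 vertices.
-/

set_option autoImplicit false

namespace Pool.Agent.Y351.HC

open Pool.Agent.Results.MP_9038fc_co.Disproof (IsTournament hamCount maxHam bddAbove)

/-! tournaments given by a code -/

def upb (n code i j : ℕ) : Bool :=
  if j = i + 1 then true else if i = 0 ∧ j + 1 = n then false else code.testBit (idx i j)

def AX (n code i j : ℕ) : Bool :=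
  if i < j then upb n code i j else if j < i then !upb n code j i else false

theorem AX_tournament (n code : ℕ) :
    IsTournament (fun i j : Fin n => AX n code i.val j.val = true) := by
  constructor
  · intro v
    simp [AX]
  · intro v w hvw
    have h3 : v.val ≠ w.val := fun h => hvw (Fin.ext h)
    simp only
    unfold AX
    rcases Nat.lt_or_gt_of_ne h3 with h | h
    · rw [if_pos h, if_neg (by omega), if_pos h]
      simp
    · rw [if_neg (by omega), if_pos h, if_pos h]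
      simp

theorem exists_of_code (m code h : ℕ) (hm : 1 ≤ m) (av : List ℕ) (hav : av = List.range' 1 m)
    (hc : cnt (AX (m + 1) code) m 0 av = h) :
    ∃ adj : Fin (m + 1) → Fin (m + 1) → Prop, IsTournament adj ∧ hamCount adj = h := by
  refine ⟨_, AX_tournament (m + 1) code, ?_⟩
  rw [hamCount_eq (by omega) _ (AX (m + 1) code) (fun _ _ => Iff.rfl),
    HL_ncard (m + 1) _ av (by rw [hav]; rfl)]
  exact hc

theorem maxHam_le {n b : ℕ} (h : ∀ adj : Fin n → Fin n → Prop, IsTournament adj → hamCount adj ≤ b) :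
    maxHam n ≤ b := by
  unfold maxHam
  refine csSup_le ⟨_, (fun i j => i < j), ⟨fun v => lt_irrefl v, fun v w hvw => ?_⟩, rfl⟩ ?_
  · rw [not_lt]
    exact ⟨fun h => h.le, fun h => lt_of_le_of_ne h hvw⟩
  · rintro _ ⟨adj, hT, rfl⟩
    exact h adj hT

theorem le_maxHam {n h : ℕ} (hex : ∃ adj : Fin n → Fin n → Prop, IsTournament adj ∧ hamCount adj = h) :
    h ≤ maxHam n := le_csSup (bddAbove n) hex

/-! one and two vertices -/

theorem exists_zero (n : ℕ) (hn : n = 1 ∨ n = 2) (adj : Fin n → Fin n → Prop)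
    (hT : IsTournament adj) : hamCount adj = 0 := by
  unfold hamCount
  rw [Set.ncard_eq_zero (Set.toFinite _)]
  rw [Set.eq_empty_iff_forall_notMem]
  rintro c ⟨hc, hs, ha⟩
  rcases hn with rfl | rfl
  · obtain ⟨x, hx, -⟩ := hc
    exact hx (Subsingleton.elim _ _)
  · have h0 : c 0 ≠ 0 := by
      have : (0 : Fin 2) ∈ c.support := by rw [hs]; simp
      exact Equiv.Perm.mem_support.1 this
    have h1 : c 1 ≠ 1 := by
      have : (1 : Fin 2) ∈ c.support := by rw [hs]; simp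
      exact Equiv.Perm.mem_support.1 this
    have e0 : c 0 = 1 := by
      have : ∀ x : Fin 2, x ≠ 0 → x = 1 := by decide
      exact this _ h0
    have e1 : c 1 = 0 := by
      have : ∀ x : Fin 2, x ≠ 1 → x = 0 := by decide
      exact this _ h1
    have a0 := ha 0
    have a1 := ha 1
    rw [e0] at a0
    rw [e1] at a1
    exact (hT.2 0 1 (by decide)).1 a0 a1

/-! upper bounds -/

theorem inv3 : ∀ j < 3, ∀ i < 3, (i + 2 ≤ j ∧ ¬ (i = 0 ∧ j + 1 = 3)) →
      idx i j < 0 ∧ inv 3 (idx i j) = (i, j) := by decide +kernel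
theorem inv4 : ∀ j < 4, ∀ i < 4, (i + 2 ≤ j ∧ ¬ (i = 0 ∧ j + 1 = 4)) →
      idx i j < 2 ∧ inv 4 (idx i j) = (i, j) := by decide +kernel
theorem inv5 : ∀ j < 5, ∀ i < 5, (i + 2 ≤ j ∧ ¬ (i = 0 ∧ j + 1 = 5)) →
      idx i j < 5 ∧ inv 5 (idx i j) = (i, j) := by decide +kernel
theorem inv6 : ∀ j < 6, ∀ i < 6, (i + 2 ≤ j ∧ ¬ (i = 0 ∧ j + 1 = 6)) →
      idx i j < 9 ∧ inv 6 (idx i j) = (i, j) := by decide +kernel
theorem inv7 : ∀ j < 7, ∀ i < 7, (i + 2 ≤ j ∧ ¬ (i = 0 ∧ j + 1 = 7)) →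
      idx i j < 14 ∧ inv 7 (idx i j) = (i, j) := by decide +kernel

theorem c3 : ∀ u < 2 ^ (0 - 0), chk 3 0 u 4 [1, 2] [1] = true := by decide +kernel
theorem c4 : ∀ u < 2 ^ (2 - 2), chk 4 2 u 4 [1, 2, 3] [1] = true := by decide +kernel
theorem c5 : ∀ u < 2 ^ (5 - 5), chk 5 5 u 5 [1, 2, 3, 4] [1, 2, 3] = true := by decide +kernel
theorem c6 : ∀ u < 2 ^ (9 - 9), chk 6 9 u 7 [1, 2, 3, 4, 5] [1, 2, 3, 4, 5] = true := by
  decide +kernel
theorem c7 : ∀ u < 2 ^ (14 - 14), chk 7 14 u 10 [1, 2, 3, 4, 5, 6]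
    [1, 2, 3, 4, 5, 6, 7, 8, 9, 10, 11, 12, 13, 14, 15, 17, 24] = true := by decide +kernel

theorem bound3 (adj : Fin 3 → Fin 3 → Prop) (hT : IsTournament adj) : hamCount adj ≤ 1 := by
  have := spectrum_of_chk 2 0 0 4 (by norm_num) (by norm_num) [1, 2] [1] rfl
    (fun j hj i hi h1 h2 => inv3 j hj i hi ⟨h1, h2⟩) (by decide)
    (by decide) c3 adj hT
  rcases this with h | h
  · omega
  · simp at h; omega

theorem bound4 (adj : Fin 4 → Fin 4 → Prop) (hT : IsTournament adj) : hamCount adj ≤ 1 := by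
  have := spectrum_of_chk 3 2 2 4 (by norm_num) (by norm_num) [1, 2, 3] [1] rfl
    (fun j hj i hi h1 h2 => inv4 j hj i hi ⟨h1, h2⟩) (by decide)
    (by decide) c4 adj hT
  rcases this with h | h
  · omega
  · simp at h; omega

theorem bound5 (adj : Fin 5 → Fin 5 → Prop) (hT : IsTournament adj) : hamCount adj ≤ 3 := by
  have := spectrum_of_chk 4 5 5 5 (by norm_num) (by norm_num) [1, 2, 3, 4] [1, 2, 3] rfl
    (fun j hj i hi h1 h2 => inv5 j hj i hi ⟨h1, h2⟩)
    (by decide) (by decide) c5 adj hT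
  rcases this with h | h
  · omega
  · simp at h; omega

theorem bound6 (adj : Fin 6 → Fin 6 → Prop) (hT : IsTournament adj) : hamCount adj ≤ 5 := by
  have := spectrum_of_chk 5 9 9 7 (by norm_num) (by norm_num) [1, 2, 3, 4, 5] [1, 2, 3, 4, 5] rfl
    (fun j hj i hi h1 h2 => inv6 j hj i hi ⟨h1, h2⟩) (by decide) (by decide) c6 adj hT
  rcases this with h | h
  · omega
  · simp at h; omega

theorem spec7 (adj : Fin 7 → Fin 7 → Prop) (hT : IsTournament adj) :
    hamCount adj ≤ 15 ∨ hamCount adj = 17 ∨ hamCount adj = 24 := by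
  have := spectrum_of_chk 6 14 14 10 (by norm_num) (by norm_num) [1, 2, 3, 4, 5, 6]
    [1, 2, 3, 4, 5, 6, 7, 8, 9, 10, 11, 12, 13, 14, 15, 17, 24] rfl
    (fun j hj i hi h1 h2 => inv7 j hj i hi ⟨h1, h2⟩) (by decide) (by decide)
    c7 adj hT
  rcases this with h | h
  · omega
  · simp at h; omega

def ex7 : List (ℕ × ℕ) :=
  [(10, 463), (11, 452), (12, 454), (13, 962), (14, 1247), (15, 966), (17, 1387), (24, 3762)]

theorem ex7_ok : ∀ p ∈ ex7, cnt (AX 7 p.2) 6 0 [1, 2, 3, 4, 5, 6] = p.1 := by decide +kernel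

theorem real7 (h : ℕ) (hh : h ≤ 15 ∨ h = 17 ∨ h = 24) :
    ∃ adj : Fin 7 → Fin 7 → Prop, IsTournament adj ∧ hamCount adj = h := by
  rcases Nat.lt_or_ge h 10 with h9 | h10
  · exact exists_tournament 4 h (by
      have : trib (4 + 1) = 9 := by decide
      omega)
  · have hmem : h ∈ ex7.map Prod.fst := by
      have : h ∈ [10, 11, 12, 13, 14, 15, 17, 24] := by
        simp
        omega
      exact this
    obtain ⟨p, hp, rfl⟩ := List.mem_map.1 hmem
    exact exists_of_code 6 p.2 p.1 (by norm_num) [1, 2, 3, 4, 5, 6] rfl (ex7_ok p hp)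

end Pool.Agent.Y351.HC
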