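import Mathlib
import Pool.Agent.Y351.HC.Small

/-!
Numbers of Hamiltonian circuits of tournaments on 8 vertices.
-/

set_option autoImplicit false

namespace Pool.Agent.Y351.HC

open Pool.Agent.Results.MP_9038fc_co.Disproof (IsTournament hamCount maxHam)

theorem inv8 : ∀ j < 8, ∀ i < 8, (i + 2 ≤ j ∧ ¬ (i = 0 ∧ j + 1 = 8)) →
      idx i j < 20 ∧ inv 8 (idx i j) = (i, j) := by decide +kernel

def av8 : List ℕ := [1, 2, 3, 4, 5, 6, 7]

theorem c8_0 : chk 8 17 0 13 av8 (List.range 55) = true := by decide +kernel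
theorem c8_1 : chk 8 17 1 13 av8 (List.range 55) = true := by decide +kernel
theorem c8_2 : chk 8 17 2 13 av8 (List.range 55) = true := by decide +kernel
theorem c8_3 : chk 8 17 3 13 av8 (List.range 55) = true := by decide +kernel
theorem c8_4 : chk 8 17 4 13 av8 (List.range 55) = true := by decide +kernel
theorem c8_5 : chk 8 17 5 13 av8 (List.range 55) = true := by decide +kernel
theorem c8_6 : chk 8 17 6 13 av8 (List.range 55) = true := by decide +kernel
theorem c8_7 : chk 8 17 7 13 av8 (List.range 55) = true := by decide +kernel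

theorem c8 : ∀ u < 2 ^ (20 - 17), chk 8 17 u 13 av8 (List.range 55) = true := by
  intro u hu
  have h8 : u < 8 := hu
  interval_cases u
  · exact c8_0
  · exact c8_1
  · exact c8_2
  · exact c8_3
  · exact c8_4
  · exact c8_5
  · exact c8_6
  · exact c8_7

theorem bound8 (adj : Fin 8 → Fin 8 → Prop) (hT : IsTournament adj) : hamCount adj ≤ 54 := by
  have := spectrum_of_chk 7 17 20 13 (by norm_num) (by norm_num) av8 (List.range 55) rfl
    (fun j hj i hi h1 h2 => inv8 j hj i hi ⟨h1, h2⟩) (by decide)
    (fun h hh => by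
      rw [List.mem_range] at hh
      omega) c8 adj hT
  rcases this with h | h
  · omega
  · rw [List.mem_range] at h
    omega

def ex8 : List (ℕ × ℕ) :=
  [(18, 1243), (19, 3130), (20, 3150), (21, 1501), (22, 3163), (23, 3227), (24, 3166), (25, 3295),
   (26, 7227), (27, 3762), (28, 7270), (29, 7254), (30, 7259), (31, 7286), (32, 15403),
   (33, 7531), (34, 15438), (35, 15439), (36, 15452), (37, 15451), (38, 15567), (39, 15531),
   (40, 36276), (41, 31819), (42, 36063), (43, 31822), (44, 36317), (45, 31835), (46, 36764),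
   (47, 40159), (48, 40405), (49, 40399), (50, 101627), (51, 101756), (52, 101855),
   (53, 101883), (54, 102066)]

theorem ex8_ok : ∀ p ∈ ex8, cnt (AX 8 p.2) 7 0 av8 = p.1 := by decide +kernel

theorem ex8_mem : ∀ h < 55, 18 ≤ h → h ∈ ex8.map Prod.fst := by decide +kernel

theorem real8 (h : ℕ) (hh : h ≤ 54) :
    ∃ adj : Fin 8 → Fin 8 → Prop, IsTournament adj ∧ hamCount adj = h := by
  rcases Nat.lt_or_ge h 18 with h9 | h10
  · exact exists_tournament 5 h (by
      have : trib (5 + 1) = 17 := by decide
      omega)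
  · have hmem := ex8_mem h (by omega) h10
    obtain ⟨p, hp, rfl⟩ := List.mem_map.1 hmem
    exact exists_of_code 7 p.2 p.1 (by norm_num) av8 rfl (ex8_ok p hp)

end Pool.Agent.Y351.HC
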